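import Pool.Agent.Y709.Ten.Stm
import Mathlib.FieldTheory.Finite.Extension

/-!
The Euler product of a product of an odd number of curves (statement A4).
-/

set_option autoImplicit false
set_option linter.unusedSectionVars false
set_option linter.style.haveILetI false

open Polynomial

namespace Pool.Agent.Y948.Ten

open Pool.Agent.W313.Hyp Pool.Agent.W343.BSD Pool.Agent.Y709 Pool.Agent.Y709.Gen
open Pool.Agent.Y709.Ten

section alg

variable {ι : Type} [Fintype ι] [DecidableEq ι] {κ : ι → Type} [∀ j, Fintype (κ j)]
  [∀ j, DecidableEq (κ j)] {R : Type} [CommRing R]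

theorem tens_mul (A B : ∀ j, Matrix (κ j) (κ j) R) :
    tens A * tens B = tens (fun j => A j * B j) := by
  ext u v
  rw [Matrix.mul_apply]
  unfold tens
  simp only [Matrix.of_apply, Matrix.mul_apply]
  rw [Finset.prod_univ_sum, Fintype.piFinset_univ]
  refine Finset.sum_congr rfl fun w _ => ?_
  rw [Finset.prod_mul_distrib]

theorem tens_one : tens (fun j => (1 : Matrix (κ j) (κ j) R)) = 1 := by
  ext u v
  unfold tens
  rw [Matrix.of_apply, Matrix.one_apply]
  split_ifs with h
  · subst h
    exact Finset.prod_eq_one fun j _ => Matrix.one_apply_eq _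
  · obtain ⟨j, hj⟩ := Function.ne_iff.1 h
    exact Finset.prod_eq_zero (Finset.mem_univ j) (Matrix.one_apply_ne hj)

theorem tens_pow (A : ∀ j, Matrix (κ j) (κ j) R) (a : ℕ) :
    (tens A) ^ a = tens (fun j => A j ^ a) := by
  induction a with
  | zero =>
    rw [pow_zero, ← tens_one]
    congr 1
  | succ a ih =>
    rw [pow_succ, ih, tens_mul]
    congr 1

theorem trace_tens (A : ∀ j, Matrix (κ j) (κ j) R) :
    (tens A).trace = ∏ j, (A j).trace := by
  unfold Matrix.trace
  rw [Finset.prod_univ_sum, Fintype.piFinset_univ]
  refine Finset.sum_congr rfl fun w _ => ?_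
  unfold tens
  rw [Matrix.diag_apply, Matrix.of_apply]
  rfl

theorem trace_smul_tens_pow (A : ∀ j, Matrix (κ j) (κ j) R) (c : R) (a : ℕ) :
    ((c • tens A) ^ a).trace = c ^ a * ∏ j, ((A j) ^ a).trace := by
  rw [_root_.smul_pow, tens_pow, Matrix.trace_smul, trace_tens, smul_eq_mul]

end alg

theorem lg_one_eq {R : Type} [CommRing R] {S : PowerSeries R} (h : Lg (1 : PowerSeries R) S) :
    S = 0 := by
  unfold Lg at h
  rw [Derivation.map_one_eq_zero, mul_zero, one_mul] at h
  exact neg_eq_zero.1 h.symm

theorem constantCoeff_ZV (hA : PointsAff) (R : Type) [CommRing R] {k F : Type} [Field k]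
    [Field F] [Finite F] [Algebra k F] {n : ℕ} (χ : MulChar k R) (g : MvPolynomial (Fin n) F) :
    PowerSeries.constantCoeff (ZV R χ g) = 1 := by
  have hfin := (hA F n).2
  unfold ZV
  rw [← PowerSeries.coeff_zero_eq_constantCoeff_apply, coeff_eulerProd hfin]
  have h3 : (hfin 0).toFinset = ∅ := by
    rw [Set.Finite.toFinset_eq_empty]
    ext z
    simp only [Set.mem_ofPred_eq, Set.mem_empty_iff_false, iff_false]
    have := (hA F n).1 z
    omega
  rw [h3, Finset.prod_empty, PowerSeries.coeff_zero_one]

/-- A4: the Euler product of a product of an odd number of curves -/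
theorem fibreProduct (hA : PointsAff) (hS : SumsAff) (hL : SumsLine) : FibreProduct := by
  intro R _ _ _ k F _ _ _ _ _ χ n hn c f κ _ _ A hfA
  obtain ⟨S, hSL, hS0, hSc⟩ := hS R k F χ n
    (MvPolynomial.C c * ∏ j, Polynomial.aeval (MvPolynomial.X j) (f j))
  choose T hTL hT0 hTc using fun j : Fin n => hL R k F χ (f j)
  have hT : ∀ j, T j + psum (A j) = 0 := by
    intro j
    have h1 := (hTL j).mul (lg_charpolyRev (A j))
    rw [hfA j] at h1
    exact lg_one_eq h1
  have hTa : ∀ j (a : ℕ), a ≠ 0 → PowerSeries.coeff a (T j) = - ((A j) ^ a).trace := by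
    intro j a ha
    have h1 := congrArg (PowerSeries.coeff a) (hT j)
    rw [map_add, coeff_psum, if_neg ha, map_zero] at h1
    exact eq_neg_of_add_eq_zero_left h1
  have hkey : S + psum (χ (Algebra.norm k c) • tens A) = 0 := by
    ext a
    rw [map_add, coeff_psum, map_zero]
    by_cases ha : a = 0
    · rw [if_pos ha, ha, hS0, add_zero]
    · rw [if_neg ha]
      obtain ⟨p, hp⟩ := CharP.exists F
      have hpf : Fact (Nat.Prime p) := ⟨CharP.char_is_prime F p⟩
      have hnz : NeZero a := ⟨ha⟩
      letI hEf : Fintype (FiniteField.Extension F p a) := Fintype.ofFinite _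
      letI hEk : Algebra k (FiniteField.Extension F p a) :=
        ((algebraMap F (FiniteField.Extension F p a)).comp (algebraMap k F)).toAlgebra
      haveI hEt : IsScalarTower k F (FiniteField.Extension F p a) :=
        IsScalarTower.of_algebraMap_eq fun _ => rfl
      have hfr : Module.finrank F (FiniteField.Extension F p a) = a :=
        FiniteField.finrank_extension F p a
      rw [hSc a ha (FiniteField.Extension F p a) hfr]
      have hl : ∀ j, ∑ y : FiniteField.Extension F p a,
          χ (Algebra.norm k (Polynomial.aeval y (f j))) = - ((A j) ^ a).trace := by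
        intro j
        rw [← hTa j a ha, hTc j a ha (FiniteField.Extension F p a) hfr]
      have hx : ∀ x : Fin n → FiniteField.Extension F p a,
          χ (Algebra.norm k (MvPolynomial.aeval x
            (MvPolynomial.C c * ∏ j, Polynomial.aeval (MvPolynomial.X j) (f j)))) =
          (χ (Algebra.norm k c)) ^ a *
            ∏ j, χ (Algebra.norm k (Polynomial.aeval (x j) (f j))) := by
        intro x
        have h1 : MvPolynomial.aeval x
            (MvPolynomial.C c * ∏ j, Polynomial.aeval (MvPolynomial.X j) (f j)) =
            algebraMap F (FiniteField.Extension F p a) c *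
              ∏ j, Polynomial.aeval (x j) (f j) := by
          rw [map_mul, map_prod, MvPolynomial.aeval_C]
          congr 1
          refine Finset.prod_congr rfl fun j _ => ?_
          rw [← Polynomial.aeval_algHom_apply, MvPolynomial.aeval_X]
        rw [h1, map_mul, map_mul, map_prod, map_prod, ← Algebra.norm_norm (R := k) (S := F),
          Algebra.norm_algebraMap, hfr, map_pow, map_pow]
      rw [Finset.sum_congr rfl fun x _ => hx x, ← Finset.mul_sum]
      have hs : ∑ x : Fin n → FiniteField.Extension F p a,
          ∏ j, χ (Algebra.norm k (Polynomial.aeval (x j) (f j))) =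
          ∏ j : Fin n, ∑ y : FiniteField.Extension F p a,
            χ (Algebra.norm k (Polynomial.aeval y (f j))) := by
        rw [Finset.prod_univ_sum, Fintype.piFinset_univ]
      rw [hs, Finset.prod_congr rfl fun j _ => hl j, trace_smul_tens_pow]
      have hneg : ∏ j : Fin n, (- ((A j) ^ a).trace) = - ∏ j : Fin n, ((A j) ^ a).trace := by
        have h2 : ∏ j : Fin n, (- ((A j) ^ a).trace) =
            ∏ j : Fin n, ((-1) * ((A j) ^ a).trace) :=
          Finset.prod_congr rfl fun j _ => (neg_one_mul _).symm
        rw [h2, Finset.prod_mul_distrib, Finset.prod_const, Finset.card_univ, Fintype.card_fin,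
          hn.neg_one_pow, neg_one_mul]
      rw [hneg]
      ring
  have h1 := hSL.mul (lg_charpolyRev (χ (Algebra.norm k c) • tens A))
  rw [hkey] at h1
  refine Lg.unique h1 Lg.one ?_ (map_one _)
  rw [map_mul, constantCoeff_charpolyRev, mul_one]
  exact constantCoeff_ZV hA R χ _

end Pool.Agent.Y948.Ten
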